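import Pool.Agent.W845.GL.Stm

/-!
# The harmonic sum
-/

set_option autoImplicit false
set_option maxHeartbeats 400000

namespace Pool.Agent.W975.GL

open Pool.Agent.W845.GL Filter

theorem aa_sq (j : ℕ) : aa j ^ 2 = 1 / ((j : ℝ) + 1) := by
  unfold aa
  have h : (0 : ℝ) ≤ (j : ℝ) + 1 := by positivity
  rw [div_pow, one_pow, Real.sq_sqrt h]

theorem vb : S_VB := by
  constructor
  · intro N hN
    have h0 : aa 0 ^ 2 = 1 := by
      rw [aa_sq]; norm_num
    have h1 : aa 0 ^ 2 ≤ ∑ j ∈ Finset.range N, aa j ^ 2 :=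
      Finset.single_le_sum (f := fun j => aa j ^ 2) (fun i _ => sq_nonneg _)
        (Finset.mem_range.2 (by omega))
    unfold VV
    rw [h0] at h1
    exact h1
  · have h := Real.tendsto_sum_range_one_div_nat_succ_atTop
    refine h.congr fun N => ?_
    unfold VV
    apply Finset.sum_congr rfl
    intro j _
    rw [aa_sq]

end Pool.Agent.W975.GL
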